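import Mathlib
import Pool.Agent.Helper47.SigmaTwoCore

/-!
# limsup of the minimal number of distinct entries in solutions of sigma_2 = sigma_n

We prove that `limsup M(n) = 4`.  The upper bound is the known explicit family; the lower bound
follows from the theorem `core` of the imported file (a counting argument).
-/

namespace Pool.Agent.Results.MP_2b461e_nt.LimsupEqFour

open Pool.Agent.Helper47.SigmaTwo

/-- `sigma i x` is the `i`-th elementary symmetric polynomial evaluated at the tuple `x`. -/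
def sigma {n : ℕ} (i : ℕ) (x : Fin n → ℕ) : ℕ :=
  ∑ s ∈ Finset.powersetCard i (Finset.univ : Finset (Fin n)), ∏ j ∈ s, x j

/-- `S n` is the set of `n`-tuples `x_1 ≤ ... ≤ x_n` of positive integers with `σ_2 = σ_n`. -/
def S (n : ℕ) : Set (Fin n → ℕ) :=
  {x | (∀ i, 1 ≤ x i) ∧ Monotone x ∧ sigma 2 x = sigma n x}

/-- `M n` is the minimal number of distinct entries of a tuple in `S n`. -/
noncomputable def M (n : ℕ) : ℕ :=
  sInf {c : ℕ | ∃ x ∈ S n, (Finset.univ.image x).card = c}

lemma sigma_self {n : ℕ} (x : Fin n → ℕ) : sigma n x = ∏ i, x i := by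
  unfold sigma
  have : Finset.powersetCard n (Finset.univ : Finset (Fin n)) = {Finset.univ} := by
    have h := Finset.powersetCard_self (Finset.univ : Finset (Fin n))
    rwa [Finset.card_fin] at h
  rw [this, Finset.sum_singleton]

lemma two_sigma_aux {ι : Type*} [DecidableEq ι] (t : Finset ι) (x : ι → ℕ) :
    2 * (∑ s ∈ Finset.powersetCard 2 t, ∏ j ∈ s, x j) + ∑ i ∈ t, x i ^ 2 = (∑ i ∈ t, x i) ^ 2 := by
  induction t using Finset.induction_on with
  | empty => simp
  | insert a t ha ih =>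
    rw [Finset.powersetCard_succ_insert ha 1, Finset.sum_union, Finset.sum_image,
      Finset.sum_insert ha, Finset.sum_insert ha]
    · have h1 : ∑ s ∈ Finset.powersetCard 1 t, ∏ j ∈ insert a s, x j = x a * ∑ i ∈ t, x i := by
        rw [Finset.powersetCard_one, Finset.sum_map, Finset.mul_sum]
        apply Finset.sum_congr rfl
        intro i hi
        have hai : a ≠ i := by rintro rfl; exact ha hi
        simp [Finset.prod_pair hai]
      rw [h1]
      calc 2 * (∑ s ∈ Finset.powersetCard 2 t, ∏ j ∈ s, x j + x a * ∑ i ∈ t, x i) +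
            (x a ^ 2 + ∑ i ∈ t, x i ^ 2)
          = (2 * (∑ s ∈ Finset.powersetCard 2 t, ∏ j ∈ s, x j) + ∑ i ∈ t, x i ^ 2)
            + 2 * (x a * ∑ i ∈ t, x i) + x a ^ 2 := by ring
        _ = (∑ i ∈ t, x i) ^ 2 + 2 * (x a * ∑ i ∈ t, x i) + x a ^ 2 := by rw [ih]
        _ = _ := by ring
    · intro s hs s' hs' h
      have h1 : a ∉ s := fun h => ha ((Finset.mem_powersetCard.1 hs).1 h)
      have h2 : a ∉ s' := fun h => ha ((Finset.mem_powersetCard.1 hs').1 h)
      rw [← Finset.erase_insert h1, ← Finset.erase_insert h2, h]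
    · rw [Finset.disjoint_left]
      intro s hs hs'
      rw [Finset.mem_image] at hs'
      obtain ⟨s', -, rfl⟩ := hs'
      exact ha ((Finset.mem_powersetCard.1 hs).1 (Finset.mem_insert_self a s'))

lemma two_sigma {n : ℕ} (x : Fin n → ℕ) :
    2 * sigma 2 x + ∑ i, x i ^ 2 = (∑ i, x i) ^ 2 := two_sigma_aux _ _

/-- no tuple without ones -/
lemma no_ones {n : ℕ} (hn : 7 ≤ n) (x : Fin n → ℕ) (h2 : ∀ i, 2 ≤ x i) (h : sigma 2 x = sigma n x) :
    False := by
  rw [sigma_self] at h
  have h1 : ∀ s ∈ Finset.powersetCard 2 (Finset.univ : Finset (Fin n)),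
      (∏ j ∈ s, x j) * 2 ^ (n - 2) ≤ ∏ i, x i := by
    intro s hs
    rw [Finset.mem_powersetCard] at hs
    rw [← Finset.prod_mul_prod_compl s]
    apply Nat.mul_le_mul_left
    calc 2 ^ (n - 2) = ∏ _j ∈ sᶜ, 2 := by
          rw [Finset.prod_const, Finset.card_compl, Fintype.card_fin, hs.2]
      _ ≤ _ := Finset.prod_le_prod' (fun i _ => h2 i)
  have h3 : sigma 2 x * 2 ^ (n - 2) ≤ n.choose 2 * ∏ i, x i := by
    unfold sigma
    rw [Finset.sum_mul]
    calc _ ≤ ∑ _s ∈ Finset.powersetCard 2 (Finset.univ : Finset (Fin n)), ∏ i, x i :=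
          Finset.sum_le_sum h1
      _ = _ := by rw [Finset.sum_const, Finset.card_powersetCard, Finset.card_fin, smul_eq_mul]
  rw [h, mul_comm] at h3
  have hpos : 0 < ∏ i, x i := Finset.prod_pos (fun i _ => by have := h2 i; omega)
  have h4 : 2 ^ (n - 2) ≤ n.choose 2 := Nat.le_of_mul_le_mul_right h3 hpos
  have h5 := two_pow_bound hn
  have h6 : n - 1 = (n - 2) + 1 := by omega
  rw [h6, pow_succ 2 (n - 2)] at h5
  have h7 : n.choose 2 * 2 ≤ n ^ 2 := by
    rw [Nat.choose_two_right]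
    have := Nat.div_mul_le_self (n * (n - 1)) 2
    have h8 : n * (n - 1) ≤ n ^ 2 := by rw [sq]; exact Nat.mul_le_mul_left n (by omega)
    omega
  have h9 : 0 < 2 ^ (n - 2) := by positivity
  omega

/-- the witness for the upper bound -/
lemma upper (n : ℕ) (hn : 3 ≤ n) : ∃ x ∈ S n, (Finset.univ.image x).card ≤ 4 := by
  obtain ⟨k, rfl⟩ : ∃ k, n = k + 3 := ⟨n - 3, by omega⟩
  obtain ⟨q, hq⟩ : ∃ q, 2 * q = (k + 3) * (3 * k + 4) := by
    have : Even ((k + 3) * (3 * k + 4)) := by
      rcases Nat.even_or_odd k with h | h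
      · exact Even.mul_left (by
          obtain ⟨r, rfl⟩ := h
          exact ⟨3 * r + 2, by ring⟩) _
      · exact Even.mul_right (by
          obtain ⟨r, rfl⟩ := h
          exact ⟨r + 2, by ring⟩) _
    obtain ⟨r, hr⟩ := this
    exact ⟨r, by omega⟩
  have hq3 : k + 3 ≤ q := by nlinarith
  let x : Fin (k + 3) → ℕ := fun i => if i.val < k then 1 else if i.val = k then 2
    else if i.val = k + 1 then k + 3 else q
  have hx : ∀ i, x i = if i.val < k then 1 else if i.val = k then 2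
    else if i.val = k + 1 then k + 3 else q := fun i => rfl
  refine ⟨x, ⟨?_, ?_, ?_⟩, ?_⟩
  · intro i
    rw [hx]
    split_ifs <;> omega
  · intro i j hij
    have hij' : i.val ≤ j.val := hij
    rw [hx, hx]
    split_ifs <;> omega
  · have h1 := two_sigma x
    rw [sigma_self]
    have hs : ∑ i, x i = k + 2 + (k + 3) + q := by
      rw [Fin.sum_univ_castSucc, Fin.sum_univ_castSucc, Fin.sum_univ_castSucc]
      simp [hx]
    have hs2 : ∑ i, x i ^ 2 = k + 4 + (k + 3) ^ 2 + q ^ 2 := by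
      rw [Fin.sum_univ_castSucc, Fin.sum_univ_castSucc, Fin.sum_univ_castSucc]
      simp [hx]
    have hp : ∏ i, x i = 2 * (k + 3) * q := by
      rw [Fin.prod_univ_castSucc, Fin.prod_univ_castSucc, Fin.prod_univ_castSucc]
      simp [hx]
    rw [hs, hs2] at h1
    rw [hp]
    nlinarith
  · have hsub : Finset.univ.image x ⊆ {1, 2, k + 3, q} := by
      intro w hw
      rw [Finset.mem_image] at hw
      obtain ⟨i, -, rfl⟩ := hw
      rw [hx]
      split_ifs <;> simp
    exact (Finset.card_le_card hsub).trans Finset.card_le_four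

lemma fiber_sum {n : ℕ} (x : Fin n → ℕ) (T : Finset ℕ) (hT : ∀ i, x i ∈ T) (g : ℕ → ℕ) :
    ∑ i, g (x i) = ∑ w ∈ T, (Finset.univ.filter (fun i => x i = w)).card * g w := by
  rw [← Finset.sum_fiberwise_of_maps_to (s := Finset.univ) (t := T) (g := x) (fun i _ => hT i)]
  apply Finset.sum_congr rfl
  intro w _
  rw [Finset.sum_congr rfl (g := fun _ => g w)]
  · rw [Finset.sum_const, smul_eq_mul]
  · intro i hi
    rw [Finset.mem_filter] at hi
    rw [hi.2]

lemma fiber_prod {n : ℕ} (x : Fin n → ℕ) (T : Finset ℕ) (hT : ∀ i, x i ∈ T) :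
    ∏ i, x i = ∏ w ∈ T, w ^ (Finset.univ.filter (fun i => x i = w)).card := by
  rw [← Finset.prod_fiberwise_of_maps_to (s := Finset.univ) (t := T) (g := x) (fun i _ => hT i)]
  apply Finset.prod_congr rfl
  intro w _
  rw [Finset.prod_congr rfl (g := fun _ => w)]
  · rw [Finset.prod_const]
  · intro i hi
    rw [Finset.mem_filter] at hi
    exact hi.2

/-- a tuple with at most three distinct entries gives a solution of the reduced equation -/
lemma reduce {n : ℕ} (hn : 9 ≤ n) (x : Fin n → ℕ) (hx : x ∈ S n)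
    (hc : (Finset.univ.image x).card ≤ 3) :
    ∃ a b u v m, 1 ≤ a ∧ a ≤ b ∧ 2 ≤ u ∧ 2 ≤ v ∧ m + a + b = n ∧ E a b u v m := by
  obtain ⟨hpos, -, heq⟩ := hx
  -- it is enough to find an unordered pair
  suffices h : ∃ a b u v m, 1 ≤ a ∧ 1 ≤ b ∧ 2 ≤ u ∧ 2 ≤ v ∧ m + a + b = n ∧ E a b u v m by
    obtain ⟨a, b, u, v, m, ha, hb, hu, hv, hm, hE⟩ := h
    rcases le_total a b with hab | hab
    · exact ⟨a, b, u, v, m, ha, hab, hu, hv, hm, hE⟩
    · exact ⟨b, a, v, u, m, hb, hab, hv, hu, by omega, E_symm hE⟩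
  by_cases h1 : ∃ i, x i = 1
  swap
  · exfalso
    push Not at h1
    exact no_ones (by omega) x (fun i => by have := hpos i; have := h1 i; omega) heq
  have h1mem : 1 ∈ Finset.univ.image x := by
    obtain ⟨i, hi⟩ := h1
    exact Finset.mem_image.2 ⟨i, Finset.mem_univ _, hi⟩
  have hT : ∀ i, x i ∈ Finset.univ.image x := fun i =>
    Finset.mem_image.2 ⟨i, Finset.mem_univ _, rfl⟩
  have hTpos : ∀ w ∈ Finset.univ.image x, 1 ≤ w := by
    intro w hw
    obtain ⟨i, -, rfl⟩ := Finset.mem_image.1 hw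
    exact hpos i
  have hcpos : ∀ w ∈ Finset.univ.image x, 1 ≤ (Finset.univ.filter (fun i => x i = w)).card := by
    intro w hw
    obtain ⟨i, -, hi⟩ := Finset.mem_image.1 hw
    rw [Nat.one_le_iff_ne_zero, Ne, Finset.card_eq_zero, ← Ne, ← Finset.nonempty_iff_ne_empty]
    exact ⟨i, by simp [hi]⟩
  set T := Finset.univ.image x with hTdef
  have s0 := fiber_sum x T hT (fun _ => 1)
  have s1 := fiber_sum x T hT (fun w => w)
  have s2 := fiber_sum x T hT (fun w => w ^ 2)
  have p1 := fiber_prod x T hT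
  have h2s := two_sigma x
  rw [heq, sigma_self] at h2s
  simp only [mul_one, Finset.sum_const, Finset.card_fin, smul_eq_mul] at s0
  set c := fun w => (Finset.univ.filter (fun i => x i = w)).card with hcdef
  have hins : T = insert 1 (T.erase 1) := (Finset.insert_erase h1mem).symm
  have hne : 1 ∉ T.erase 1 := Finset.notMem_erase 1 T
  have hcard : (T.erase 1).card ≤ 2 := by
    rw [Finset.card_erase_of_mem h1mem]; omega
  rw [hins, Finset.sum_insert hne] at s0 s1 s2
  rw [hins, Finset.prod_insert hne, one_pow, one_mul] at p1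
  have hU : ∀ w ∈ T.erase 1, 2 ≤ w ∧ 1 ≤ c w := by
    intro w hw
    have h3 := Finset.mem_of_mem_erase hw
    have h4 := Finset.ne_of_mem_erase hw
    have h5 := hTpos w h3
    exact ⟨by omega, hcpos w h3⟩
  rcases (by omega : (T.erase 1).card = 0 ∨ (T.erase 1).card = 1 ∨ (T.erase 1).card = 2)
    with h | h | h
  · -- all ones
    exfalso
    rw [Finset.card_eq_zero] at h
    rw [h] at s0 s1 s2 p1
    simp only [Finset.sum_empty, Finset.prod_empty, add_zero, mul_one, one_pow] at s0 s1 s2 p1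
    rw [s1, s2, p1, ← s0] at h2s
    nlinarith
  · -- one non-one value
    obtain ⟨u, hu⟩ := Finset.card_eq_one.1 h
    have hu2 := hU u (by rw [hu]; exact Finset.mem_singleton_self u)
    rw [hu] at s0 s1 s2 p1
    simp only [Finset.sum_singleton, Finset.prod_singleton, mul_one, one_pow] at s0 s1 s2 p1
    rw [s1, s2, p1] at h2s
    obtain ⟨hu2, hcu⟩ := hu2
    rcases Nat.lt_or_ge (c u) 2 with hlt | hge
    · exfalso
      have hc1 : c u = 1 := by omega
      change 2 * u ^ (c u) + (c 1 + c u * u ^ 2) = (c 1 + c u * u) ^ 2 at h2s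
      rw [hc1] at h2s
      have hm : n = c 1 + 1 := by
        change n = c 1 + c u at s0
        omega
      nlinarith
    · refine ⟨1, c u - 1, u, u, c 1, le_rfl, by omega, hu2, hu2, ?_, ?_⟩
      · change n = c 1 + c u at s0
        omega
      · obtain ⟨k, hk⟩ : ∃ k, c u = k + 1 := ⟨c u - 1, by omega⟩
        change 2 * u ^ (c u) + (c 1 + c u * u ^ 2) = (c 1 + c u * u) ^ 2 at h2s
        rw [hk] at h2s ⊢
        unfold E
        rw [Nat.add_sub_cancel]
        calc 2 * (u ^ 1 * u ^ k) + c 1 + 1 * u ^ 2 + k * u ^ 2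
            = 2 * u ^ (k + 1) + (c 1 + (k + 1) * u ^ 2) := by ring
          _ = (c 1 + (k + 1) * u) ^ 2 := h2s
          _ = _ := by ring
  · -- two non-one values
    obtain ⟨u, v, huv, hUV⟩ := Finset.card_eq_two.1 h
    have hu2 := hU u (by rw [hUV]; simp)
    have hv2 := hU v (by rw [hUV]; simp)
    rw [hUV, Finset.sum_pair huv] at s0 s1 s2
    rw [hUV, Finset.prod_pair huv] at p1
    rw [s1, s2, p1] at h2s
    refine ⟨c u, c v, u, v, c 1, hu2.2, hv2.2, hu2.1, hv2.1, ?_, ?_⟩
    · change n = c 1 + (c u + c v) at s0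
      omega
    · change 2 * (u ^ (c u) * v ^ (c v)) + (c 1 * 1 ^ 2 + (c u * u ^ 2 + c v * v ^ 2)) =
        (c 1 * 1 + (c u * u + c v * v)) ^ 2 at h2s
      unfold E
      calc 2 * (u ^ (c u) * v ^ (c v)) + c 1 + c u * u ^ 2 + c v * v ^ 2
          = 2 * (u ^ (c u) * v ^ (c v)) + (c 1 * 1 ^ 2 + (c u * u ^ 2 + c v * v ^ 2)) := by ring
        _ = (c 1 * 1 + (c u * u + c v * v)) ^ 2 := h2s
        _ = _ := by ring

lemma M_le {n : ℕ} (hn : 3 ≤ n) : M n ≤ 4 := by
  obtain ⟨x, hx, hc⟩ := upper n hn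
  have hmem : (Finset.univ.image x).card ∈
      {c : ℕ | ∃ x ∈ S n, (Finset.univ.image x).card = c} := ⟨x, hx, rfl⟩
  have h : M n ≤ (Finset.univ.image x).card := Nat.sInf_le hmem
  exact h.trans hc

lemma four_le_M {n : ℕ} (hn : 9 ≤ n) (h : ∀ a b u v m, 1 ≤ a → a ≤ b → 2 ≤ u → 2 ≤ v →
    m + a + b = n → ¬ E a b u v m) : 4 ≤ M n := by
  obtain ⟨x0, hx0, -⟩ := upper n (by omega)
  have hne : {c : ℕ | ∃ x ∈ S n, (Finset.univ.image x).card = c}.Nonempty :=
    ⟨_, x0, hx0, rfl⟩
  have hmem : M n ∈ {c : ℕ | ∃ x ∈ S n, (Finset.univ.image x).card = c} := Nat.sInf_mem hne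
  obtain ⟨x, hx, hc⟩ := hmem
  by_contra hlt
  obtain ⟨a, b, u, v, m, ha, hab, hu, hv, hm, hE⟩ := reduce hn x hx (by omega)
  exact h a b u v m ha hab hu hv hm hE

/-- `limsup M(n) = 4`. -/
theorem result : Filter.limsup (fun n : ℕ => (M n : ℕ∞)) Filter.atTop = 4 := by
  apply le_antisymm
  · apply Filter.limsup_le_of_le
    · isBoundedDefault
    · filter_upwards [Filter.eventually_ge_atTop 3] with n hn
      exact_mod_cast M_le hn
  · apply Filter.le_limsup_of_frequently_le
    · rw [Filter.frequently_atTop]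
      intro n0
      obtain ⟨n, hn, hE⟩ := core (max n0 9)
      refine ⟨n, le_trans (le_max_left _ _) hn, ?_⟩
      exact_mod_cast four_le_M (le_trans (le_max_right _ _) hn) hE
    · isBoundedDefault

end Pool.Agent.Results.MP_2b461e_nt.LimsupEqFour
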